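import Mathlib
import Pool.Agent.TH813.GAnyC

/-!
# 1-motives over products of `𝔾ₘ` and elliptic curves whose periods are algebraic over the point

`Λ c`, `c = 1, …, q`, are pairs of periods `ω₁, ω₂` (independent over `ℝ`), with the lattices
`Ω_c = (Λ c).lattice = ℤ ω₁ + ℤ ω₂` and the elliptic curves `E_c = ℂ / Ω_c`, which are supposed to
be pairwise non-isogenous; `℘[L]`, `L.g₂`, `L.g₃` are Mathlib's Weierstrass function and invariants
of `L = Λ c`.

For `G = 𝔾ₘ^s × ∏ E_c^(n_c)` and a point `r = (t, p)` of the Lie algebra the 1-motive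
`M = [ℤ → G]`, `1 ↦ exp_G r`, is defined over a field `k` which contains the invariants and the
coordinates `e^t`, `℘(p)`, `℘'(p)`, and its periods are those of `G` together with the numbers
`t`, `p`, `ζ(p)`. Let `F` be a field of constants, for example the one generated by `2πi`, the
invariants, the periods and the quasi-periods of the curves. The period conjecture predicts that
the numbers `t`, `p`, `ζ(p)`, `e^t`, `℘(p)` generate a field of large transcendence degree over `F`.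

For every finite-dimensional `ℚ`-space `V` of vectors in `Lie G` and every `m` the theorem bounds
the number of rational subspaces of `V` which contain all `r` in `V` whose numbers `t`, `p`, `ζ(p)`
are all algebraic over the field `F(e^t, ℘(p))` of the point, and this field has transcendence
degree `m` over `F`.

A point is a function `r` on the index set `Ix s n`: `t_l = r (inl l)` for `l = 1, …, s`, and
`p_(c,i) = r (inr ⟨c, i⟩)` for `c = 1, …, q`, `i = 1, …, n_c`.
-/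

set_option autoImplicit false

open Module
open scoped PeriodPair

namespace Pool.Agent.Results.MP_12eca1_ag.AlgebraicPeriods

/-- The Weierstrass zeta function `ζ(z) = ∑ (1/(z-l) + 1/l + z/l²)`, the sum over the lattice (the
summand of `l = 0` is `1/z`, since `1/0 = 0` in Lean). -/
noncomputable def ζ (L : PeriodPair) (z : ℂ) : ℂ :=
  ∑' l : L.lattice, (1 / (z - l) + 1 / l + z / l ^ 2)

variable {q : ℕ}

/-- The curves `ℂ / Ω_c` are pairwise non-isogenous: there is no nonzero homomorphism from one to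
another. -/
def NonIsog (Λ : Fin q → PeriodPair) : Prop :=
  ∀ c c', c ≠ c' → ∀ α : ℂ, (∀ w ∈ (Λ c).lattice, α * w ∈ (Λ c').lattice) → α = 0

/-- the invariants `g₂`, `g₃` of all curves are in `F` -/
def Inv (Λ : Fin q → PeriodPair) (F : IntermediateField ℚ ℂ) : Prop :=
  ∀ c, (Λ c).g₂ ∈ F ∧ (Λ c).g₃ ∈ F

/-- the indices of the coordinates of `Lie G` -/
abbrev Ix (s : ℕ) (n : Fin q → ℕ) : Type := Fin s ⊕ (Σ c : Fin q, Fin (n c))

variable {s : ℕ} {n : Fin q → ℕ}

/-- the numbers `e^t` -/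
def ex (r : Ix s n → ℂ) : Set ℂ := {x | ∃ l, x = Complex.exp (r (Sum.inl l))}

/-- the numbers `℘(p)`, for the `p` outside the lattices -/
def wp (Λ : Fin q → PeriodPair) (r : Ix s n → ℂ) : Set ℂ :=
  {x | ∃ c i, r (Sum.inr ⟨c, i⟩) ∉ (Λ c).lattice ∧ x = ℘[Λ c] (r (Sum.inr ⟨c, i⟩))}

/-- the numbers `ζ(p)`, for the `p` outside the lattices -/
def ze (Λ : Fin q → PeriodPair) (r : Ix s n → ℂ) : Set ℂ :=
  {x | ∃ c i, r (Sum.inr ⟨c, i⟩) ∉ (Λ c).lattice ∧ x = ζ (Λ c) (r (Sum.inr ⟨c, i⟩))}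

/-- the numbers `t`, `p`, `e^t`, `℘(p)`, `ζ(p)` -/
def pts (Λ : Fin q → PeriodPair) (r : Ix s n → ℂ) : Set ℂ :=
  Set.range r ∪ (ex r ∪ (wp Λ r ∪ ze Λ r))

/-- the transcendence degree over `F` of the field generated by `S` over `F` -/
noncomputable def trd (F : IntermediateField ℚ ℂ) (S : Set ℂ) : Cardinal :=
  Algebra.trdeg F (IntermediateField.adjoin F S)

/-- all numbers in `S'` are algebraic over `F(S)` -/
def AlgOver (F : IntermediateField ℚ ℂ) (S S' : Set ℂ) : Prop :=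
  ∀ x ∈ S', IsAlgebraic (IntermediateField.adjoin F S) x

/-- the numbers `e^(b₁ t₁ + … + b_s t_s)` for all rational vectors `b` with
`a₁ b₁ + … + a_s b_s = 0` -/
def perp (r : Ix s n → ℂ) (a : Fin s → ℚ) : Set ℂ :=
  {x | ∃ b : Fin s → ℚ, ∑ j, a j * b j = 0 ∧ x = Complex.exp (∑ j, (b j : ℂ) * r (Sum.inl j))}

/-- The points considered: all `p` are outside the lattices, `tr.deg_F F(e^t, ℘(p)) = m`, the
numbers `t`, `p`, `ζ(p)` are algebraic over `F(e^t, ℘(p))`, and for every nonzero rational vector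
`a` the numbers `e^t` are algebraic over the field generated over `F` by `t`, `p`, `℘(p)`, `ζ(p)`
and all `e^(b₁ t₁ + … + b_s t_s)`, where `b` is a rational vector with `a₁ b₁ + … + a_s b_s = 0`. -/
def Considered (Λ : Fin q → PeriodPair) (F : IntermediateField ℚ ℂ) (m : ℕ)
    (r : Ix s n → ℂ) : Prop :=
  (∀ c i, r (Sum.inr ⟨c, i⟩) ∉ (Λ c).lattice) ∧ trd F (ex r ∪ wp Λ r) = m ∧
  AlgOver F (ex r ∪ wp Λ r) (Set.range r ∪ ze Λ r) ∧
  ∀ a : Fin s → ℚ, a ≠ 0 → AlgOver F ((Set.range r ∪ (wp Λ r ∪ ze Λ r)) ∪ perp r a) (ex r)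

/-- `tr.deg_F F(t, e^t, p, ℘(p), ζ(p) : (t, p) ∈ W) = m`, and there is a point in `W` with
`tr.deg_F F(e^t, ℘(p)) = m` -/
def DegreeIs (Λ : Fin q → PeriodPair) (F : IntermediateField ℚ ℂ) (m : ℕ)
    (W : Submodule ℚ (Ix s n → ℂ)) : Prop :=
  trd F (⋃ r ∈ W, pts Λ r) = m ∧ ∃ r ∈ W, trd F (ex r ∪ wp Λ r) = m

section aux

open Pool.Agent.TH813 Pool.Agent.TH813.G

/-- the numbers of coordinates -/
def nn (s : ℕ) (n : Fin q → ℕ) : Fin (q + 1) → ℕ := Fin.cons s n

/-- points as tuples -/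
def φ : (Ix s n → ℂ) ≃ₗ[ℚ] Tu (nn s n) where
  toFun r := Fin.cases (motive := fun c => Fin (nn s n c) → ℂ) (fun l => r (Sum.inl l))
    (fun c i => r (Sum.inr ⟨c, i⟩))
  map_add' r r' := by
    funext c
    refine Fin.cases ?_ (fun c => ?_) c
    · rfl
    · rfl
  map_smul' a r := by
    funext c
    refine Fin.cases ?_ (fun c => ?_) c
    · rfl
    · rfl
  invFun z := Sum.elim (fun l => z 0 l) (fun p => z p.1.succ p.2)
  left_inv r := by
    funext k
    rcases k with l | ⟨c, i⟩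
    · rfl
    · rfl
  right_inv z := by
    funext c
    refine Fin.cases ?_ (fun c => ?_) c
    · rfl
    · rfl

theorem lin_φ (r : Ix s n → ℂ) : GAnyC.lin (φ r) = Set.range r := by
  ext x
  constructor
  · rintro ⟨c, i, rfl⟩
    revert i
    refine Fin.cases ?_ (fun c => ?_) c
    · exact fun i => ⟨Sum.inl i, rfl⟩
    · exact fun i => ⟨Sum.inr ⟨c, i⟩, rfl⟩
  · rintro ⟨k, rfl⟩
    rcases k with l | ⟨c, i⟩
    · exact ⟨0, l, rfl⟩
    · exact ⟨c.succ, i, rfl⟩

theorem ex_φ (r : Ix s n → ℂ) : GAnyC.ex (φ r) = ex r := rfl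

theorem wp_φ (Λ : Fin q → PeriodPair) (r : Ix s n → ℂ) : GAnyC.wp Λ (φ r) = wp Λ r := rfl

theorem ze_φ (Λ : Fin q → PeriodPair) (r : Ix s n → ℂ) : GAnyC.ze Λ (φ r) = ze Λ r := rfl

theorem pts_φ (Λ : Fin q → PeriodPair) (r : Ix s n → ℂ) : GAnyC.pts Λ (φ r) = pts Λ r := by
  unfold GAnyC.pts pts
  rw [lin_φ, ex_φ, wp_φ, ze_φ]

theorem reg_φ {Λ : Fin q → PeriodPair} {F : IntermediateField ℚ ℂ} {m : ℕ} {r : Ix s n → ℂ}
    (h : Considered Λ F m r) : GAnyC.Reg Λ F m (φ r) := by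
  refine ⟨h.1, h.2.1, ?_, fun a ha i => ?_⟩
  · rw [lin_φ, ze_φ]
    exact h.2.2.1
  · rw [lin_φ, wp_φ, ze_φ]
    exact h.2.2.2 a ha _ ⟨i, rfl⟩

end aux

open Pool.Agent.TH813 in
/-- **Main result.** For every finite-dimensional `ℚ`-space `V` of points `r = (t, p)` of `Lie G`
and every `m` there is a finite set of at most `binom((m + 1) dim V, dim V)` subspaces `W` of `V`
such that

* every `W` has `tr.deg_F F(t, e^t, p, ℘(p), ζ(p) : (t, p) ∈ W) = m`, and there is a point in `W`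
with `tr.deg_F F(e^t, ℘(p)) = m`;
* if `(t, p)` is in two different `W` then `tr.deg_F F(t, e^t, p, ℘(p), ζ(p)) < m`;
* every point in `V` which satisfies the conditions above is in one of the `W`. -/
theorem result (Λ : Fin q → PeriodPair) (hni : NonIsog Λ) (F : IntermediateField ℚ ℂ)
    (hF : Inv Λ F) (V : Submodule ℚ (Ix s n → ℂ)) (hfd : FiniteDimensional ℚ V) (m : ℕ) :
    ∃ S : Finset (Submodule ℚ (Ix s n → ℂ)),
      S.card ≤ ((m + 1) * finrank ℚ V).choose (finrank ℚ V) ∧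
      (∀ W ∈ S, W ≤ V ∧ DegreeIs Λ F m W) ∧
      (∀ W ∈ S, ∀ W' ∈ S, W ≠ W' → ∀ r ∈ W, r ∈ W' → trd F (pts Λ r) < m) ∧
      ∀ r ∈ V, Considered Λ F m r → ∃ W ∈ S, r ∈ W := by
  classical
  let f : (Ix s n → ℂ) →ₗ[ℚ] G.Tu (nn s n) := (φ (s := s) (n := n)).toLinearMap
  have hf : ∀ r, f r = φ r := fun r => rfl
  have hmem : ∀ r, f r ∈ V.map f ↔ r ∈ V := fun r => by
    constructor
    · rintro ⟨r', hr', he⟩
      have : r' = r := φ.injective he
      rw [← this]
      exact hr'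
    · exact fun h => ⟨r, h, rfl⟩
  obtain ⟨S, h1, h2, h3, h4⟩ := GAnyC.main Λ hni F (fun c => (hF c).1) (fun c => (hF c).2)
    (V.map f) m
  have hfin : finrank ℚ (V.map f) = finrank ℚ V := LinearEquiv.finrank_map_eq φ V
  rw [hfin] at h1
  refine ⟨S.image (Submodule.comap f), Finset.card_image_le.trans h1, ?_, ?_, ?_⟩
  · intro W hW
    obtain ⟨W', hW', rfl⟩ := Finset.mem_image.1 hW
    obtain ⟨h5, h6, z, hz, h7⟩ := h2 W' hW'
    have hsurj : ∀ z, ∃ r, f r = z := fun z => ⟨φ.symm z, φ.apply_symm_apply z⟩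
    refine ⟨fun r hr => (hmem r).1 (h5 hr), ?_, ?_⟩
    · have h8 : (⋃ r ∈ Submodule.comap f W', pts Λ r) = {x | ∃ r ∈ W', x ∈ GAnyC.pts Λ r} := by
        ext x
        rw [Set.mem_iUnion₂]
        constructor
        · rintro ⟨r, hr, hx⟩
          rw [← pts_φ] at hx
          exact ⟨f r, hr, hx⟩
        · rintro ⟨z, hz, hx⟩
          obtain ⟨r, rfl⟩ := hsurj z
          refine ⟨r, hz, ?_⟩
          rw [← pts_φ]
          exact hx
      rw [h8]
      exact h6
    · obtain ⟨r, rfl⟩ := hsurj z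
      exact ⟨r, hz, h7⟩
  · intro W hW W' hW' hne r hr hr'
    obtain ⟨X, hX, rfl⟩ := Finset.mem_image.1 hW
    obtain ⟨X', hX', rfl⟩ := Finset.mem_image.1 hW'
    rw [← pts_φ]
    exact h3 X hX X' hX' (fun h => hne (by rw [h])) (f r) hr hr'
  · intro r hr hc
    obtain ⟨W, hW, hrW⟩ := h4 (f r) ((hmem r).2 hr) (reg_φ hc)
    exact ⟨_, Finset.mem_image_of_mem _ hW, hrW⟩

end Pool.Agent.Results.MP_12eca1_ag.AlgebraicPeriods
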