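import Pool.Agent.TH659.HY.Fun

/-!
# Integrals of the first and second kind on hyperelliptic curves between points with rational abscissa
-/

set_option autoImplicit false

open Polynomial

namespace Pool.Agent.Results.MP_12eca1_ag.HyperellipticIntegrals

/-- `I_i(t) = ∫_c^t s^i / √(f(s)) ds`. -/
noncomputable def I (f : ℝ[X]) (c : ℝ) (i : ℕ) (t : ℝ) : ℝ := ∫ s in c..t, s ^ i / √(f.eval s)

/-- The `1 + n (m - 1)` numbers `π` and `I_i(q_l)`, `0 ≤ i ≤ m - 2`, `l < n`, where `m` is the degree of `f`. -/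
noncomputable def numbers {n : ℕ} (f : ℝ[X]) (c : ℝ) (q : Fin n → ℚ) (z : Option (Fin n × Fin (f.natDegree - 1))) : ℝ :=
  match z with
  | none => Real.pi
  | some (l, i) => I f c (i : ℕ) (q l)

/-- The `n`-tuples `q` of rational numbers in `[a, b]` with denominators at most `T` for which some nonzero polynomial
in `1 + n (m - 1)` variables with integer coefficients of absolute value at most `T ^ A`, of degree at most `d` in each
variable, takes at the numbers `π`, `I_i(q_l)` a value of absolute value at most `T ^ (-B)`. -/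
def Exceptional (n d : ℕ) (f : ℝ[X]) (c a b A B T : ℝ) : Set (Fin n → ℚ) :=
  {q | (∀ l, a ≤ q l ∧ q l ≤ b ∧ ((q l).den : ℝ) ≤ T) ∧
    ∃ P : MvPolynomial (Option (Fin n × Fin (f.natDegree - 1))) ℤ, P ≠ 0 ∧ (∀ z, P.degreeOf z ≤ d) ∧
      (∀ s, |((P.coeff s : ℤ) : ℝ)| ≤ T ^ A) ∧ |MvPolynomial.aeval (numbers f c q) P| ≤ T ^ (-B)}

/-- Let `f` be a square-free real polynomial of degree `m ≥ 1`, positive on `[a, b]`, `a < b`, and let `c` be in `[a, b]`.
For `n ≥ 1`, `d`, `A ≥ 0` and `β > 2 - 2 / ((d + 1) ^ ((m - 1) n + 1) + 1)` there are `B` and `C` such that for all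
`T ≥ 1` there are at most `C T ^ (2 (n - 1) + β)` exceptional `n`-tuples. -/
theorem result (n d : ℕ) (hn : 1 ≤ n) (f : ℝ[X]) (hf : Squarefree f) (hm : 1 ≤ f.natDegree) (a b c : ℝ) (hab : a < b)
    (hpos : ∀ t : ℝ, a ≤ t → t ≤ b → 0 < f.eval t) (hc : a ≤ c ∧ c ≤ b) (A β : ℝ) (hA : 0 ≤ A)
    (hβ : 2 - 2 / (((d : ℝ) + 1) ^ ((f.natDegree - 1) * n + 1) + 1) < β) :
    ∃ B C : ℝ, ∀ T : ℝ, 1 ≤ T → (Exceptional n d f c a b A B T).Finite ∧
      ((Exceptional n d f c a b A B T).ncard : ℝ) ≤ C * T ^ (2 * ((n : ℝ) - 1) + β) := by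
  have hpos' : ∀ t ∈ Set.Icc a b, 0 < f.eval t := fun t ht => hpos t ht.1 ht.2
  obtain ⟨ε, hε, hen⟩ := TH659.HY.enlarge f a b hab.le hpos'
  have hen' : ∀ t ∈ Set.Ioo (a - ε) (b + ε), 0 < f.eval t := fun t ht => hen t ⟨ht.1.le, ht.2.le⟩
  have hc' : c ∈ Set.Ioo (a - ε) (b + ε) := ⟨by linarith [hc.1], by linarith [hc.2]⟩
  obtain ⟨B, C, h⟩ := TH659.AQ.polysR (n := n) (d := d)
    (fun (i : Fin (f.natDegree - 1)) (t : ℝ) => TH659.HY.HI f c (i : ℕ) t) a b hab
    (fun i t ht => TH659.HY.HI_an f _ _ hen' c hc' i t ⟨by linarith [ht.1], by linarith [ht.2]⟩)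
    (TH659.HY.HI_ind f hf (f.natDegree - 1) d (by omega) a b hab hpos' c hc) hn A β hA
    (by rw [Fintype.card_fin]; exact hβ)
  refine ⟨B, C, fun T hT => ?_⟩
  have heq : ∀ q : Fin n → ℚ, numbers f c q =
      TH659.AQ.vR (fun (i : Fin (f.natDegree - 1)) (t : ℝ) => TH659.HY.HI f c (i : ℕ) t) q := by
    intro q
    funext z
    rcases z with _ | ⟨l, i⟩ <;> rfl
  have heq2 : Exceptional n d f c a b A B T = TH659.AQ.ExR (n := n) d
      (fun (i : Fin (f.natDegree - 1)) (t : ℝ) => TH659.HY.HI f c (i : ℕ) t) a b A B T := by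
    unfold Exceptional TH659.AQ.ExR
    simp only [heq]
  rw [heq2]
  exact h T hT

end Pool.Agent.Results.MP_12eca1_ag.HyperellipticIntegrals
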