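import Pool.Agent.TH426.MT.Logs
import Pool.Agent.H297R2.Density
import Pool.Agent.H337R2.LZ.Z

/-!
# The de Rham–Betti form of the period conjecture for mixed Tate motives over `ℚ`

The Tannaka group of the category `MT(ℚ)` of mixed Tate motives over `ℚ` is `U ⋊ 𝔾_m`, the graded Lie
algebra of `U` being free on one generator of degree `1` for every prime number `p` and one generator
of degree `n` for every odd `n ≥ 3` (`Ext¹(ℚ(0), ℚ(1)) = ℚ^× ⊗ ℚ`, `Ext¹(ℚ(0), ℚ(n)) = K_{2n-1}(ℚ) ⊗ ℚ`).
The objects of `MT(ℚ)` are the graded representations of this free Lie algebra (`Obj` in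
`Pool.Agent.TH426.MT.Gen`, in homogeneous bases); the periods of the generators are `log p` and `ζ(n)`.
-/

set_option autoImplicit false

namespace Pool.Agent.Results.MP_12eca1_ag.MixedTateOverQ

open Pool.Agent.TH426.MT

/-- The value `ζ(2n + 3)`. -/
noncomputable def oddZeta (n : ℕ) : ℝ := ∑' j : ℕ, 1 / ((j : ℝ) + 1) ^ (2 * n + 3)

/-- The generators: the prime numbers, of degree `1`, and `n = 0, 1, 2, …`, of degree `2n + 3`. -/
abbrev Gens : Type := Nat.Primes ⊕ ℕ

/-- The degrees of the generators. -/
abbrev dg : Gens → ℕ := Sum.elim (fun _ => 1) (fun n => 2 * n + 3)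

/-! ### Proof -/

theorem mulIndep_primes : MulIndep fun p : Nat.Primes => ((p : ℕ) : ℂ) := by
  classical
  intro s m h
  have hlin := Pool.Agent.H297R2.linearIndependent_log_prime (fun p : s => ((p : Nat.Primes) : ℕ))
    (fun p => (p : Nat.Primes).2) (fun p q hpq => Subtype.ext (Subtype.ext hpq))
  rw [Fintype.linearIndependent_iff] at hlin
  have h1 : ∏ p ∈ s, (((p : ℕ) : ℝ)) ^ m p = 1 := by
    have : ((∏ p ∈ s, (((p : ℕ) : ℝ)) ^ m p : ℝ) : ℂ) = 1 := by
      push_cast
      exact h
    exact_mod_cast this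
  have h2 : ∑ p ∈ s, (m p : ℝ) * Real.log (p : ℕ) = 0 := by
    have := congrArg Real.log h1
    rw [Real.log_one, Real.log_prod (fun p _ => zpow_ne_zero _ (by
      exact_mod_cast p.2.ne_zero))] at this
    rw [← this]
    exact Finset.sum_congr rfl fun p _ => (Real.log_zpow _ _).symm
  have h3 := hlin (fun p => (m p : ℚ)) (by
    have h4 : ((∑ p ∈ s, (m p : ℝ) * Real.log (p : ℕ) : ℝ) : ℂ) = 0 := by
      rw [h2]; rfl
    rw [← Finset.sum_coe_sort s (fun p => (m p : ℝ) * Real.log (p : ℕ))] at h4
    rw [← h4]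
    push_cast
    refine Finset.sum_congr rfl fun p _ => ?_
    rw [Rat.smul_def]
    push_cast
    rfl)
  intro p hp
  have := h3 ⟨p, hp⟩
  exact_mod_cast this

theorem alg_rat : ∀ x : ℚ, IsAlgebraic ℚ (algebraMap ℚ ℂ x) := fun x => isAlgebraic_algebraMap x

theorem irr_three : Irrational (oddZeta 0) := by
  rintro ⟨q, hq⟩
  have h := Pool.Agent.LZ.Z3_linind
  rw [Fintype.linearIndependent_iff] at h
  have e : oddZeta 0 = Pool.Agent.H337R2.zr 3 := rfl
  rw [e] at hq
  have h1 := h ![q, 0, -1] (by
    rw [Fin.sum_univ_three]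
    simp only [Matrix.cons_val_zero, Matrix.cons_val_one, Matrix.cons_val, Rat.smul_def]
    rw [← hq]
    push_cast
    ring) 2
  simp at h1

/-- **Main result.** Let `u` be any family with `u_∅ = 1`, `u_p = log p`, `u_n = ζ(2n + 3)`.

(1), (2): the de Rham–Betti form of the period conjecture, for subobjects and for morphisms, holds
for all mixed Tate motives over `ℚ` with weights in an interval of length at most `8`;
(3), (4): it holds for all those on which only the generators of odd degree `n ≥ 3` with `ζ(n)`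
irrational act (and any generators of degree `1`);
(5), (6): it holds for all mixed Tate motives over `ℚ`, in either form, if and only if
`ζ(3), ζ(5), ζ(7), …` are all irrational. -/
theorem result (u : List Gens → ℂ) (h0 : u [] = 1)
    (h1 : ∀ p : Nat.Primes, u [Sum.inl p] = Real.log (p : ℕ))
    (h2 : ∀ n : ℕ, u [Sum.inr n] = oddZeta n) :
    (∀ M : Obj Gens dg ℚ, (∀ i j, M.d i ≤ M.d j + 4) → M.Saturated u) ∧
    (∀ M N : Obj Gens dg ℚ, (∀ i j, M.d i ≤ M.d j + 4) → (∀ i j, N.d i ≤ N.d j + 4) →
      Full M N u) ∧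
    (∀ M : Obj Gens dg ℚ, (∀ n, M.σ (Sum.inr n) ≠ 0 → Irrational (oddZeta n)) →
      M.Saturated u) ∧
    (∀ M N : Obj Gens dg ℚ, (∀ n, M.σ (Sum.inr n) ≠ 0 ∨ N.σ (Sum.inr n) ≠ 0 →
      Irrational (oddZeta n)) → Full M N u) ∧
    ((∀ M : Obj Gens dg ℚ, M.Saturated u) ↔ ∀ n, Irrational (oddZeta n)) ∧
    ((∀ M N : Obj Gens dg ℚ, Full M N u) ↔ ∀ n, Irrational (oddZeta n)) := by
  classical
  have hpos : ∀ l, 0 < dg l := by
    intro l
    rcases l with i | j
    · exact one_pos
    · show 0 < 2 * j + 3
      omega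
  have key : ∀ P : Gens → Prop, (∀ n, P (Sum.inr n) → Irrational (oddZeta n)) →
      ∀ t, 1 ≤ t → Indep ℚ dg u P t := by
    intro P hP t ht
    rcases Nat.eq_or_lt_of_le ht with rfl | h'
    · exact indep_one alg_rat (fun j => by omega) (fun p => isAlgebraic_natCast _)
        (fun p => by
          show Complex.exp (Real.log (p : ℕ)) = ((p : ℕ) : ℂ)
          rw [← Complex.ofReal_exp, Real.exp_log (by exact_mod_cast p.2.pos)]
          simp) mulIndep_primes h1 P
    · apply indep_of_unique alg_rat ht
      · intro l l' _ _ hlt hlt'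
        rcases l with i | j
        · simp only [dg, Sum.elim_inl] at hlt
          omega
        · rcases l' with i' | j'
          · simp only [dg, Sum.elim_inl] at hlt'
            omega
          · simp only [dg, Sum.elim_inr] at hlt hlt'
            rw [show j = j' by omega]
      · intro l hl hlt a b hab
        rcases l with i | n
        · simp only [dg, Sum.elim_inl] at hlt
          omega
        · simp only [dg, Sum.elim_inr] at hlt
          rw [h2, ← hlt] at hab
          exact hP n hl ⟨a, (real_of_odd hab).symm⟩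
  have hwin : ∀ M : Obj Gens dg ℚ, (∀ i j, M.d i ≤ M.d j + 4) →
      ∀ n, M.σ (Sum.inr n) ≠ 0 → Irrational (oddZeta n) := by
    intro M hM n hn
    rcases Nat.eq_zero_or_pos n with rfl | hpos'
    · exact irr_three
    · exfalso
      have hex : ∃ i i', M.σ (Sum.inr n) i i' ≠ 0 := by
        by_contra hcon
        push Not at hcon
        exact hn (by ext i i'; exact hcon i i')
      obtain ⟨i, i', hii⟩ := hex
      have h3 := M.raises _ i i' hii
      have h4 := hM i i'
      simp only [dg, Sum.elim_inr] at h3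
      push_cast at h3
      omega
  have hirr : (∀ t, 1 ≤ t → Indep ℚ dg u (fun _ => True) t) ↔ ∀ n, Irrational (oddZeta n) := by
    constructor
    · rintro h n ⟨q, hq⟩
      obtain ⟨-, -, h3⟩ := h (2 * n + 3) (by omega) {Sum.inr n} (by
        intro l hl
        rw [Finset.mem_singleton] at hl
        rw [hl]
        exact ⟨trivial, rfl⟩) (fun _ => -1) q 0 (by
        rw [Finset.sum_singleton, h2, ← hq]
        simp)
      have := h3 (Sum.inr n) (Finset.mem_singleton_self _)
      simp at this
    · exact fun h => key _ fun n _ => h n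
  have hgen := equiv (k := ℚ) (deg := dg) alg_rat hpos h0
  refine ⟨fun M hM => sat_of hpos h0 M (key _ (hwin M hM)), fun M N hM hN =>
    full_of hpos h0 M N (key _ fun n hn => ?_), fun M hM => sat_of hpos h0 M (key _ hM),
    fun M N hMN => full_of hpos h0 M N (key _ hMN), ?_, ?_⟩
  · rcases hn with hn | hn
    · exact hwin M hM n hn
    · exact hwin N hN n hn
  · rw [← hirr]
    exact hgen.out 0 2
  · rw [← hirr]
    exact hgen.out 1 2

end Pool.Agent.Results.MP_12eca1_ag.MixedTateOverQ
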