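import Mathlib
import Pool.Agent.TH813.GTup

/-!
# The period conjecture for 1-motives: all failures, with a uniform bound

`Λ c`, `c = 1, …, q`, are pairs of periods `ω₁, ω₂` (independent over `ℝ`), with the lattices
`Ω_c = (Λ c).lattice = ℤ ω₁ + ℤ ω₂` and the elliptic curves `E_c = ℂ / Ω_c`, which are supposed to
be pairwise non-isogenous; `℘[L]`, `L.g₂`, `L.g₃` are Mathlib's Weierstrass function and invariants
of `L = Λ c`.  Every 1-motive `M = [u : ℤⁿ → 𝔾ₘ^s × ∏ E_c^(g_c)]` over a field of complex numbers is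
given by the logarithms of the points `u(e_l)`: complex numbers `t_i` (for the coordinates in
`𝔾ₘ`) and, for every `c`, complex numbers `p_{c,i}` (for the coordinates in `E_c`).  The periods
of `M` (together with the invariants `g₂`, `g₃` and the coordinates `e^t`, `℘(p)` of the points,
which belong to the field of definition up to algebraic extensions) are the numbers in
`per Λ ∪ pts Λ t p`, and the dimension of the motivic Galois group of `M` is `galDim Λ t p`: this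
is the known formula `1 + ∑ (4 / [k_c : ℚ] - 1) + dim ⟨t⟩ + 2 ∑ dim ⟨p_c⟩`, where
`k_c = ℚ ⊗ End(E_c)`, where `⟨t⟩` is the `ℚ`-span modulo `2πi ℚ`, and `⟨p_c⟩` the `k_c`-span
modulo `Ω_c ⊗ ℚ`.

The theorem: for all `q` and `r` there is a number `N` such that for all `Λ` and for every
family `V` of spaces of dimensions at most `r` all failures of the conjecture for tuples in `V`,
together with their defects, are governed by at most `N` families of subspaces of `V`.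
-/

set_option autoImplicit false

open Module
open scoped PeriodPair

namespace Pool.Agent.Results.MP_12eca1_ag.UniformFailures

/-- The Weierstrass zeta function `ζ(z) = ∑ (1/(z-l) + 1/l + z/l²)`, the sum over the lattice (the
summand of `l = 0` is `1/z`, since `1/0 = 0` in Lean). -/
noncomputable def ζ (L : PeriodPair) (z : ℂ) : ℂ :=
  ∑' l : L.lattice, (1 / (z - l) + 1 / l + z / l ^ 2)

/-- the field `k = ℚ ⊗ End(ℂ / Ω)` as a subfield of `ℂ`; see `mem_k` -/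
noncomputable abbrev k (L : PeriodPair) : IntermediateField ℚ ℂ := Pool.Agent.TH813.Ell.kL L

/-- `k` consists of the numbers `c` such that `n c` maps the lattice to itself for some `n > 0` -/
theorem mem_k {L : PeriodPair} {c : ℂ} :
    c ∈ k L ↔ ∃ n : ℕ, 0 < n ∧ ∀ w ∈ L.lattice, (n * c) * w ∈ L.lattice := Iff.rfl

/-- `2πi ℚ` -/
noncomputable def T₀ : Submodule ℚ ℂ := Submodule.span ℚ {2 * Real.pi * Complex.I}

/-- `Ω ⊗ ℚ` as a space over `k`; see `mem_P₀` -/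
noncomputable abbrev P₀ (L : PeriodPair) : Submodule (k L) ℂ := Pool.Agent.TH813.Ell.P₂ L

/-- `Ω ⊗ ℚ` consists of the numbers which have a multiple in the lattice -/
theorem mem_P₀ {L : PeriodPair} {x : ℂ} :
    x ∈ P₀ L ↔ ∃ n : ℕ, 0 < n ∧ (n : ℂ) * x ∈ L.lattice := Iff.rfl

/-- the transcendence degree over `ℚ` of the field generated by `S` -/
noncomputable def trd (S : Set ℂ) : Cardinal := Algebra.trdeg ℚ (IntermediateField.adjoin ℚ S)

/-- the dimension of a space -/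
noncomputable def dim {K : Type} [Field K] [Module K ℂ] (X : Submodule K ℂ) : ℕ := finrank K X

/-- the dimension of the span of the classes of `z₁, …, zₙ` modulo `A` -/
noncomputable def dimMod {K : Type} [Field K] [Module K ℂ] (A : Submodule K ℂ) {n : ℕ}
    (z : Fin n → ℂ) : ℕ := finrank K (Submodule.span K (Set.range (fun i => A.mkQ (z i))))

variable {q : ℕ}

/-- The curves `ℂ / Ω_c` are pairwise non-isogenous: there is no nonzero homomorphism from one to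
another. -/
def NonIsog (Λ : Fin q → PeriodPair) : Prop :=
  ∀ c c', c ≠ c' → ∀ α : ℂ, (∀ w ∈ (Λ c).lattice, α * w ∈ (Λ c').lattice) → α = 0

/-- `2πi`, and the invariants, periods and quasi-periods `ηᵢ = 2 ζ(ωᵢ / 2)` of all curves -/
noncomputable def per (Λ : Fin q → PeriodPair) : Set ℂ :=
  {2 * Real.pi * Complex.I} ∪ ⋃ c, {(Λ c).g₂, (Λ c).g₃, (Λ c).ω₁, (Λ c).ω₂,
    2 * ζ (Λ c) ((Λ c).ω₁ / 2), 2 * ζ (Λ c) ((Λ c).ω₂ / 2)}

/-- the numbers `t`, `e^t`, and `p`, `℘(p)`, `ζ(p)` for the points `p` of all curves -/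
noncomputable def pts (Λ : Fin q → PeriodPair) {s : ℕ} {n : Fin q → ℕ} (t : Fin s → ℂ)
    (p : ∀ c, Fin (n c) → ℂ) : Set ℂ :=
  (Set.range t ∪ Complex.exp '' Set.range t) ∪
    ⋃ c, (Set.range (p c) ∪ (℘[Λ c] '' Set.range (p c) ∪ ζ (Λ c) '' Set.range (p c)))

/-- `1 + ∑ (4 / [k_c : ℚ] - 1) + dim ⟨t⟩ + 2 ∑ dim ⟨p_c⟩`, the dimension of the motivic Galois
group; `4 / [k_c : ℚ] - 1` is `3` for a curve without complex multiplication and `1` otherwise -/
noncomputable def galDim (Λ : Fin q → PeriodPair) {s : ℕ} {n : Fin q → ℕ} (t : Fin s → ℂ)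
    (p : ∀ c, Fin (n c) → ℂ) : ℕ :=
  1 + ∑ c, (4 / finrank ℚ (k (Λ c)) - 1) + dimMod T₀ t + 2 * ∑ c, dimMod (P₀ (Λ c)) (p c)

/-- The conjecture fails by at least `m` at `(t, p)`; the numbers `p_{c,i}` are outside the
lattices. -/
def Fails (Λ : Fin q → PeriodPair) (m : ℕ) {s : ℕ} {n : Fin q → ℕ} (t : Fin s → ℂ)
    (p : ∀ c, Fin (n c) → ℂ) : Prop :=
  (∀ c i, p c i ∉ (Λ c).lattice) ∧
    trd (per Λ ∪ pts Λ t p) + m ≤ ((galDim Λ t p : ℕ) : Cardinal)

/-- families of a `ℚ`-space and a `k_c`-space of complex numbers for every `c`; `≤` and `⊓` are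
componentwise -/
abbrev Fam (Λ : Fin q → PeriodPair) : Type :=
  Submodule ℚ ℂ × (∀ c, Submodule (k (Λ c)) ℂ)

/-- the family of the spaces `2πi ℚ` and `Ω_c ⊗ ℚ` -/
noncomputable def base (Λ : Fin q → PeriodPair) : Fam Λ := (T₀, fun c => P₀ (Λ c))

/-- the dimension is finite and at most `r` -/
def Sm {K : Type} [Field K] [Module K ℂ] (r : ℕ) (X : Submodule K ℂ) : Prop :=
  FiniteDimensional K X ∧ finrank K X ≤ r

/-- all spaces have dimension at most `r` -/
def Small (Λ : Fin q → PeriodPair) (r : ℕ) (V : Fam Λ) : Prop :=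
  Sm r V.1 ∧ ∀ c, Sm r (V.2 c)

/-- the tuples `t`, `p` are in the family `U` -/
def In {Λ : Fin q → PeriodPair} (U : Fam Λ) {s : ℕ} {n : Fin q → ℕ} (t : Fin s → ℂ)
    (p : ∀ c, Fin (n c) → ℂ) : Prop := (∀ i, t i ∈ U.1) ∧ ∀ c i, p c i ∈ U.2 c

/-- all `x` in `X₀` and `e^w` with `w` in `W₀`, for every `c` all `x` and `ζ(x)` with `x` in `X_c`
and all `℘(w)` with `w` in `W_c` (`ζ` and `℘` are only taken outside the lattice), and the
invariants `g₂`, `g₃` of all curves -/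
noncomputable def num (Λ : Fin q → PeriodPair) (X W : Fam Λ) : Set ℂ :=
  (⋃ c, {(Λ c).g₂, (Λ c).g₃}) ∪ (((X.1 : Set ℂ) ∪ Complex.exp '' (W.1 : Set ℂ)) ∪
    ⋃ c, ((X.2 c : Set ℂ) ∪ (ζ (Λ c) '' ((X.2 c : Set ℂ) \ ((Λ c).lattice : Set ℂ)) ∪
      ℘[Λ c] '' ((W.2 c : Set ℂ) \ ((Λ c).lattice : Set ℂ)))))

/-- `trdeg (num (X, W)) + q + m ≤ dim X₀ + 2 ∑ dim X_c` -/
def Bad (Λ : Fin q → PeriodPair) (m : ℕ) (X W : Fam Λ) : Prop :=
  trd (num Λ X W) + q + m ≤ ((dim X.1 + 2 * ∑ c, dim (X.2 c) : ℕ) : Cardinal)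

open Pool.Agent.TH813.G in
/-- **Main result.** -/
theorem result (q r : ℕ) : ∃ N : ℕ, ∀ Λ : Fin q → PeriodPair, NonIsog Λ →
    ∀ V : Fam Λ, Small Λ r V → base Λ ≤ V →
    ∃ T : Finset (Fam Λ), T.card ≤ N ∧
      (∀ W ∈ T, base Λ ≤ W ∧ W ≤ V ∧ Bad Λ 1 W W) ∧
      ∀ U : Fam Λ, base Λ ≤ U → U ≤ V → ∀ m : ℕ, 0 < m →
        ((∃ (s : ℕ) (n : Fin q → ℕ) (t : Fin s → ℂ) (p : ∀ c, Fin (n c) → ℂ),
            Fails Λ m t p ∧ In U t p) ↔
          ∃ W ∈ T, Bad Λ m (U ⊓ W) W) := by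
  obtain ⟨N, hN⟩ := perG q r
  refine ⟨N, fun Λ hni V ⟨⟨hf1, hr1⟩, hf⟩ hb => ?_⟩
  obtain ⟨T, hT1, hT2, hT3⟩ := hN Λ hni V ⟨hf1, fun c => (hf c).1⟩ hr1 (fun c => (hf c).2) hb
  refine ⟨T, hT1, fun W hW => ?_, fun U hbU hUV m hm => ?_⟩
  · obtain ⟨h1, h2, h3⟩ := hT2 W hW
    refine ⟨h1, h2, ?_⟩
    unfold Bad
    rw [Nat.cast_one]
    exact h3
  · have key := hT3 U hbU hUV m hm
    constructor
    · rintro ⟨s, n, t, p, ⟨hp, hle⟩, ht, hpU⟩
      exact key.1 ⟨s, n, t, p, hp, hle, ht, hpU⟩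
    · intro h
      obtain ⟨s, n, t, p, hp, hle, ht, hpU⟩ := key.2 h
      exact ⟨s, n, t, p, ⟨hp, hle⟩, ht, hpU⟩

end Pool.Agent.Results.MP_12eca1_ag.UniformFailures
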